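import Mathlib

open Set Complex MeasureTheory Filter Topology
open scoped Real

namespace Pool.Agent.H.MP_fd4af6_gt

noncomputable def e (t : ℝ) : ℂ := exp (t * I)

lemma e_add (a b : ℝ) : e (a + b) = e a * e b := by simp [e, add_mul, exp_add]
lemma e_zero : e 0 = 1 := by simp [e]
lemma norm_e (a : ℝ) : ‖e a‖ = 1 := norm_exp_ofReal_mul_I a
lemma e_re (a : ℝ) : (e a).re = Real.cos a := exp_ofReal_mul_I_re a
lemma e_im (a : ℝ) : (e a).im = Real.sin a := exp_ofReal_mul_I_im a
lemma e_neg_mul (a : ℝ) : e (-a) * e a = 1 := by rw [← e_add]; simp [e_zero]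
lemma e_ne (a : ℝ) : e a ≠ 0 := exp_ne_zero _
lemma e_two_pi (a : ℝ) : e (a + 2 * π) = e a := by
  rw [e_add]; simp [e]
lemma e_sub_two_pi (a : ℝ) : e (-(a + 2 * π)) = e (-a) := by
  rw [← e_two_pi]; congr 1; ring
lemma cont_e : Continuous e := by unfold e; fun_prop
lemma conj_e (a : ℝ) : (starRingEnd ℂ) (e a) = e (-a) := by
  simp [e, ← exp_conj]
lemma rot_im (a b ρ : ℝ) : (e (-a) * (ρ * e b)).im = ρ * Real.sin (b - a) := by
  have : e (-a) * (ρ * e b) = ρ * e (b - a) := by
    rw [show b - a = -a + b by ring, e_add]; ring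
  rw [this, im_ofReal_mul, e_im]
lemma rot_re (a b ρ : ℝ) : (e (-a) * (ρ * e b)).re = ρ * Real.cos (b - a) := by
  have : e (-a) * (ρ * e b) = ρ * e (b - a) := by
    rw [show b - a = -a + b by ring, e_add]; ring
  rw [this, re_ofReal_mul, e_re]
lemma e_lip (a b : ℝ) : ‖e a - e b‖ ≤ |a - b| := by
  have : e a - e b = e b * (exp (I * (a - b : ℝ)) - 1) := by
    rw [mul_sub, mul_one, mul_comm I]
    congr 1
    exact (show e a = e (b + (a - b)) by congr 1; ring).trans (e_add _ _)
  rw [this, norm_mul, norm_e, one_mul]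
  exact Real.norm_exp_I_mul_ofReal_sub_one_le
lemma hd_e (a : ℝ) : HasDerivAt e (I * e a) a := by
  have := ((hasDerivAt_id (a : ℂ)).mul_const I).cexp.comp_ofReal
  convert this using 1
  · rfl
  · simp [e, mul_comm]

lemma polar_im (z : ℂ) (a : ℝ) (h : 0 < (e (-a) * z).im) :
    0 < arg (e (-a) * z) ∧ arg (e (-a) * z) < π ∧ z = ‖z‖ * e (a + arg (e (-a) * z)) := by
  refine ⟨lt_of_le_of_ne (arg_nonneg_iff.2 h.le) ?_, arg_lt_pi_iff.2 (Or.inr h.ne'), ?_⟩
  · intro h0
    exact h.ne' (arg_eq_zero_iff.1 h0.symm).2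
  · have h1 := norm_mul_exp_arg_mul_I (e (-a) * z)
    rw [norm_mul, norm_e, one_mul] at h1
    have h2 := e_neg_mul a
    rw [e_add]
    change (‖z‖ : ℂ) * e (arg (e (-a) * z)) = _ at h1
    linear_combination (-e a) * h1 - z * h2

lemma sin_nn (x : ℝ) (h1 : -π < x) (h : 0 ≤ Real.sin x) : 0 ≤ x := by
  by_contra hn
  have := Real.sin_neg_of_neg_of_neg_pi_lt (not_le.1 hn) h1
  linarith

lemma supp (K : Set ℂ) (hK : Convex ℝ K) (o : ℂ) (ho : o ∈ interior K) (x : ℂ)
    (hx : x ∈ frontier K) : ∃ T : ℂ, (∀ z ∈ closure K, 0 ≤ ((starRingEnd ℂ) T * (z - x)).im) ∧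
      0 < ((starRingEnd ℂ) T * (o - x)).im := by
  obtain ⟨f, hf⟩ := geometric_hahn_banach_open_point hK.interior isOpen_interior hx.2
  have hf2 : ∀ z : ℂ, f z = z.re * f 1 + z.im * f I := by
    intro z
    conv_lhs => rw [show z = z.re • (1 : ℂ) + z.im • I by simp]
    rw [map_add, map_smul, map_smul]; rfl
  have key : ∀ z : ℂ, ((starRingEnd ℂ) (⟨-f I, f 1⟩ : ℂ) * (z - x)).im = f x - f z := by
    intro z
    rw [hf2 x, hf2 z]; simp; ring
  refine ⟨⟨-f I, f 1⟩, fun z hz => ?_, by rw [key]; linarith [hf o ho]⟩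
  rw [key, sub_nonneg]
  rw [← hK.closure_interior_eq_closure_of_nonempty_interior ⟨o, ho⟩] at hz
  exact closure_minimal (fun a ha => (hf a ha).le) (isClosed_le f.continuous continuous_const) hz

lemma var_le (C : ℝ → ℂ) (g : ℝ → ℝ) (a b c : ℝ) (hab : a ≤ b) (hc : 0 < c)
    (h : ∀ x y, a ≤ x → x ≤ y → y ≤ b → c * ‖C y - C x‖ ≤ g y - g x) :
    eVariationOn C (Icc a b) ≤ ENNReal.ofReal ((g b - g a) / c) := by
  have hm : MonotoneOn g (Icc a b) := by
    intro x hx y hy hxy
    have := h x y hx.1 hxy hy.2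
    have : 0 ≤ c * ‖C y - C x‖ := by positivity
    linarith
  unfold eVariationOn
  refine iSup_le ?_
  rintro ⟨n, u, hu, us⟩
  have : ∀ k, ∑ i ∈ Finset.range k, edist (C (u (i + 1))) (C (u i)) ≤
      ENNReal.ofReal ((g (u k) - g (u 0)) / c) := by
    intro k
    induction k with
    | zero => simp
    | succ k ih =>
      rw [Finset.sum_range_succ]
      have h1 := h (u k) (u (k + 1)) (us k).1 (hu (Nat.le_succ k)) (us (k + 1)).2
      have h2 := hm (us 0) (us k) (hu (Nat.zero_le k))
      have h3 : ‖C (u (k + 1)) - C (u k)‖ ≤ (g (u (k + 1)) - g (u k)) / c := by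
        rw [le_div_iff₀ hc]; linarith
      calc _ ≤ ENNReal.ofReal ((g (u k) - g (u 0)) / c) +
            ENNReal.ofReal ((g (u (k + 1)) - g (u k)) / c) := by
            gcongr
            rw [edist_dist, dist_eq_norm]
            exact ENNReal.ofReal_le_ofReal h3
        _ = _ := by
            rw [← ENNReal.ofReal_add (div_nonneg (by linarith) hc.le) ((norm_nonneg _).trans h3)]
            congr 1; ring
  refine (this n).trans (ENNReal.ofReal_le_ofReal ?_)
  have h4 := hm (us n) (right_mem_Icc.2 hab) (us n).2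
  have h5 := hm (left_mem_Icc.2 hab) (us 0) (us 0).1
  exact div_le_div_of_nonneg_right (by linarith) hc.le

lemma phi_facts (C : ℝ → ℂ) (K : Set ℂ) (o : ℂ) (φ : ℝ → ℝ) (hp : Function.Periodic C 1)
    (hi : InjOn C (Ico 0 1)) (hK : Convex ℝ K) (ho : o ∈ interior K)
    (hr : range C = frontier K) (hφ : Continuous φ) (hpol : ∀ q, C q - o = ‖C q - o‖ * e (φ q))
    (hw : φ 1 = φ 0 + 2 * π) : (∀ q, φ (q + 1) = φ q + 2 * π) ∧ StrictMono φ := by
  have hfr : ∀ q, C q ∈ frontier K := fun q => hr ▸ mem_range_self q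
  have hne : ∀ q, 0 < ‖C q - o‖ := fun q =>
    norm_pos_iff.2 (sub_ne_zero.2 fun h => (hfr q).2 (h ▸ ho))
  have h1 : ∀ q, φ (q + 1) = φ q + 2 * π := by
    have hz : ∀ q, ∃ n : ℤ, φ (q + 1) - φ q = n * (2 * π) := by
      intro q
      have a1 := hpol (q + 1)
      rw [hp q, hpol q] at a1
      nth_rewrite 2 [← hpol q] at a1
      have a2 : e (φ q) = e (φ (q + 1)) :=
        mul_left_cancel₀ (by exact_mod_cast (hne q).ne') a1
      obtain ⟨n, hn⟩ := exp_eq_exp_iff_exists_int.1 a2.symm
      refine ⟨n, ?_⟩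
      have := congrArg im hn
      simp at this
      linarith
    have hc : Continuous fun q => φ (q + 1) - φ q := by fun_prop
    have hpi := Real.pi_pos
    have no : ∀ q (m : ℤ), φ (q + 1) - φ q ≠ (2 * m + 1) * π := by
      intro q m h
      obtain ⟨n, hn⟩ := hz q
      have : (2 * m + 1 : ℝ) = 2 * n := by
        apply mul_right_cancel₀ hpi.ne'; linarith
      have : (2 * m + 1 : ℤ) = 2 * n := by exact_mod_cast this
      omega
    intro q
    obtain ⟨n, hn⟩ := hz q
    have h0 : φ (0 + 1) - φ 0 = 2 * π := by rw [zero_add]; linarith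
    rcases lt_trichotomy n 1 with h | h | h
    · have hn' : (n : ℝ) ≤ 0 := by exact_mod_cast (by omega : n ≤ 0)
      obtain ⟨x, hx⟩ := intermediate_value_univ q 0 hc
        (show π ∈ Icc (φ (q + 1) - φ q) (φ (0 + 1) - φ 0) from ⟨by nlinarith, by linarith⟩)
      exact absurd (by simpa using hx) (no x 0)
    · subst h; simp at hn; linarith
    · have hn' : (2 : ℝ) ≤ n := by exact_mod_cast (by omega : 2 ≤ n)
      obtain ⟨x, hx⟩ := intermediate_value_univ 0 q hc
        (show 3 * π ∈ Icc (φ (0 + 1) - φ 0) (φ (q + 1) - φ q) from ⟨by linarith, by nlinarith⟩)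
      exact absurd (by rw [show φ (x + 1) - φ x = 3 * π from hx]; norm_num) (no x 1)
  refine ⟨h1, ?_⟩
  have hint : ∀ (q : ℝ) (n : ℤ), φ (q + n) = φ q + n * (2 * π) := by
    intro q n
    have hper : Function.Periodic (fun q => φ q - q * (2 * π)) 1 := by
      intro q; simp only [h1]; ring
    have := hper.int_mul n q
    simp only [mul_one] at this
    linarith
  have rad : ∀ p q, φ p = φ q → ‖C q - o‖ ≤ ‖C p - o‖ := by
    intro p q h
    obtain ⟨T, t1, t2⟩ := supp K hK o ho _ (hfr p)
    have t3 := t1 _ (hfr q).1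
    have a1 : C q - C p = ((‖C q - o‖ - ‖C p - o‖ : ℝ) : ℂ) * e (φ p) := by
      have := hpol p; have := hpol q
      push_cast; rw [← h] at *; linear_combination this - ‹C p - o = _›
    have a2 : o - C p = ((-‖C p - o‖ : ℝ) : ℂ) * e (φ p) := by
      have := hpol p
      push_cast; linear_combination -this
    rw [a1, mul_left_comm, im_ofReal_mul] at t3
    rw [a2, mul_left_comm, im_ofReal_mul] at t2
    have := hne p
    by_contra hn
    have : ((starRingEnd ℂ) T * e (φ p)).im < 0 := by nlinarith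
    nlinarith
  have hinj : Function.Injective φ := by
    intro p q h
    have a1 : C p = C q := by
      have b1 := hpol p
      have b2 := hpol q
      rw [le_antisymm (rad q p h.symm) (rad p q h), h] at b1
      linear_combination b1 - b2
    have fr : ∀ x : ℝ, C (Int.fract x) = C x := by
      intro x
      have := (hp.int_mul ⌊x⌋) (Int.fract x)
      rw [← this]; congr 1; simp
    have a2 : Int.fract p = Int.fract q :=
      hi ⟨Int.fract_nonneg _, Int.fract_lt_one _⟩ ⟨Int.fract_nonneg _, Int.fract_lt_one _⟩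
        (by rw [fr, fr, a1])
    obtain ⟨n, hn⟩ := Int.fract_eq_fract.1 a2
    have a3 := hint q n
    rw [show q + n = p by linarith, h] at a3
    have : (n : ℝ) = 0 := by
      have := Real.pi_pos
      have : (n : ℝ) * (2 * π) = 0 := by linarith
      exact (mul_eq_zero.1 this).resolve_right (by positivity)
    linarith
  refine (hφ.strictMono_of_inj hinj).resolve_right fun h => ?_
  have := h (show (0 : ℝ) < 1 by norm_num)
  linarith [Real.pi_pos]

theorem tang (C : ℝ → ℂ) (K : Set ℂ) (o : ℂ) (φ : ℝ → ℝ) (hC : Continuous C)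
    (hp : Function.Periodic C 1)
    (hi : InjOn C (Ico 0 1)) (hK : Convex ℝ K) (ho : o ∈ interior K)
    (hr : range C = frontier K) (hφ : Continuous φ) (hpol : ∀ q, C q - o = ‖C q - o‖ * e (φ q))
    (hw : φ 1 = φ 0 + 2 * π)
    (hl : ∀ a b, a ≤ b → eVariationOn C (Icc a b) = ENNReal.ofReal (b - a)) :
    ∃ θ : ℝ → ℝ, Monotone θ ∧ (∀ q, θ (q + 1) = θ q + 2 * π) ∧
      ∀ q, C q = C 0 + ∫ x in (0 : ℝ)..q, e (θ x) := by
  obtain ⟨h1, hm⟩ := phi_facts C K o φ hp hi hK ho hr hφ hpol hw
  have hfr : ∀ q, C q ∈ frontier K := fun q => hr ▸ mem_range_self q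
  have hne : ∀ q, 0 < ‖C q - o‖ := fun q =>
    norm_pos_iff.2 (sub_ne_zero.2 fun h => (hfr q).2 (h ▸ ho))
  choose! T t1 t2 using supp K hK o ho
  have tpos : ∀ q, 0 < (e (-φ q) * T (C q)).im := by
    intro q
    have a2 : o - C q = ((-‖C q - o‖ : ℝ) : ℂ) * e (φ q) := by
      have := hpol q
      push_cast; linear_combination -this
    have b := t2 _ (hfr q)
    rw [a2, mul_left_comm, im_ofReal_mul] at b
    have c : (e (-φ q) * T (C q)).im = -((starRingEnd ℂ) (T (C q)) * e (φ q)).im := by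
      rw [← conj_e]; simp; ring
    have := hne q
    rw [c]; nlinarith
  set θ : ℝ → ℝ := fun q => φ q + arg (e (-φ q) * T (C q)) with hθ
  have b1 : ∀ q, φ q < θ q := fun q => by linarith [(polar_im _ _ (tpos q)).1]
  have b2 : ∀ q, θ q < φ q + π := fun q => by linarith [(polar_im _ _ (tpos q)).2.1]
  have b3 : ∀ p q, 0 ≤ (e (-θ q) * (C p - C q)).im := by
    intro p q
    have a := t1 _ (hfr q) _ (hfr p).1
    have a3 : T (C q) = ‖T (C q)‖ * e (θ q) := (polar_im _ _ (tpos q)).2.2
    have a4 : 0 < ‖T (C q)‖ := norm_pos_iff.2 fun h => by simpa [h] using tpos q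
    rw [a3, map_mul, conj_ofReal, conj_e, mul_assoc, im_ofReal_mul] at a
    exact nonneg_of_mul_nonneg_right a a4
  have chord : ∀ p q, p < q → φ q - φ p < π →
      ∃ ψ, θ p ≤ ψ ∧ ψ ≤ θ q ∧ C q - C p = ‖C q - C p‖ * e ψ := by
    intro p q hpq hd
    have d0 : 0 < φ q - φ p := sub_pos.2 (hm hpq)
    have s0 := Real.sin_pos_of_pos_of_lt_pi d0 hd
    have v : C q - C p = ‖C q - o‖ * e (φ q) - ‖C p - o‖ * e (φ p) := by
      linear_combination hpol q - hpol p
    have i1 : 0 < (e (-φ p) * (C q - C p)).im := by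
      rw [v, mul_sub, sub_im, rot_im, rot_im]
      simp only [sub_self, Real.sin_zero, mul_zero, sub_zero]
      exact mul_pos (hne q) s0
    have i2 : 0 < (e (-φ q) * (C q - C p)).im := by
      rw [v, mul_sub, sub_im, rot_im, rot_im, sub_self, ← neg_sub (φ q), Real.sin_neg,
        Real.sin_zero]
      have := mul_pos (hne p) s0
      linarith
    obtain ⟨p1, p2, p3⟩ := polar_im _ _ i1
    set ψ := φ p + arg (e (-φ p) * (C q - C p))
    have n0 : 0 < ‖C q - C p‖ := norm_pos_iff.2 fun h => by simp [h] at i1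
    rw [p3, rot_im] at i2
    have q1 : φ q ≤ ψ := by
      have := sin_nn (ψ - φ q) (by simp only [ψ]; linarith) (nonneg_of_mul_nonneg_right i2.le n0)
      linarith
    refine ⟨ψ, ?_, ?_, p3⟩
    · have := b3 q p
      rw [p3, rot_im] at this
      have := sin_nn (ψ - θ p) (by linarith [b2 p]) (nonneg_of_mul_nonneg_right this n0)
      linarith
    · have := b3 p q
      rw [← neg_sub (C q), p3, mul_neg, neg_im, rot_im, ← neg_sub (θ q), Real.sin_neg] at this
      have := sin_nn (θ q - ψ) (by simp only [ψ]; linarith [b1 q])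
        (nonneg_of_mul_nonneg_right (by linarith) n0)
      linarith
  have mono : Monotone θ := by
    intro p q hpq
    rcases hpq.eq_or_lt with rfl | hpq
    · exact le_rfl
    by_cases hd : φ q - φ p < π
    · obtain ⟨ψ, a, b, -⟩ := chord p q hpq hd
      linarith
    · linarith [b1 q, b2 p]
  have lip : ∀ a b, a ≤ b → ‖C b - C a‖ ≤ b - a := by
    intro a b hab
    have := eVariationOn.edist_le C (right_mem_Icc.2 hab) (left_mem_Icc.2 hab)
    rw [hl a b hab, edist_dist, dist_eq_norm] at this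
    exact (ENNReal.ofReal_le_ofReal_iff (by linarith)).1 this
  have der : ∀ q, ContinuousAt θ q → HasDerivAt C (e (θ q)) q := by
    intro q hq
    rw [hasDerivAt_iff_isLittleO, Asymptotics.isLittleO_iff]
    intro c hc
    obtain ⟨ε, e0, e1, e2⟩ : ∃ ε : ℝ, 0 < ε ∧ ε ≤ 1 ∧ ε ≤ c :=
      ⟨min 1 c, lt_min one_pos hc, min_le_left _ _, min_le_right _ _⟩
    have ev : ∀ᶠ x in 𝓝 q, |θ x - θ q| < ε ∧ |φ x - φ q| < π / 2 :=
      ((Metric.tendsto_nhds.1 hq) ε e0).and
        ((Metric.tendsto_nhds.1 hφ.continuousAt) _ (by linarith [Real.pi_pos]))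
    obtain ⟨δ, d0, hδ⟩ := Metric.eventually_nhds_iff.1 ev
    have est : ∀ a b, |a - q| < δ → |b - q| < δ → a ≤ b →
        ‖C b - C a - (b - a) • e (θ q)‖ ≤ ε * (b - a) := by
      intro a b ha hb hab
      have c0 : 0 < 1 - ε ^ 2 / 2 := by nlinarith
      have hv := var_le C (fun x => (e (-θ q) * C x).re) a b _ hab c0 (by
        intro x y hx hxy hy
        rcases hxy.eq_or_lt with rfl | hxy
        · simp
        rw [abs_lt] at ha hb
        obtain ⟨x1, x2⟩ := hδ (y := x) (by rw [Real.dist_eq, abs_lt]; constructor <;> linarith)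
        obtain ⟨y1, y2⟩ := hδ (y := y) (by rw [Real.dist_eq, abs_lt]; constructor <;> linarith)
        rw [abs_lt] at x1 x2 y1 y2
        obtain ⟨ψ, f1, f2, f3⟩ := chord x y hxy (by linarith)
        rw [← sub_re, ← mul_sub]
        nth_rewrite 2 [f3]
        rw [rot_re, mul_comm]
        apply mul_le_mul_of_nonneg_left _ (norm_nonneg _)
        have := Real.one_sub_sq_div_two_le_cos (x := ψ - θ q)
        have : (ψ - θ q) ^ 2 ≤ ε ^ 2 := sq_le_sq' (by linarith) (by linarith)
        linarith)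
      rw [hl a b hab] at hv
      have l0 : 0 ≤ b - a := by linarith
      have hv2 : (b - a) * (1 - ε ^ 2 / 2) ≤ (e (-θ q) * (C b - C a)).re := by
        rw [mul_sub (e _), sub_re]
        rcases ENNReal.ofReal_le_ofReal_iff'.1 hv with h | h
        · exact (le_div_iff₀ c0).1 h
        · have : a = b := by linarith
          subst this; simp
      have l1 := lip a b hab
      have n1 : ‖C b - C a - (b - a) • e (θ q)‖ = ‖e (-θ q) * (C b - C a) - (b - a : ℝ)‖ := by
        rw [← one_mul ‖C b - C a - _‖, ← norm_e (-θ q), ← norm_mul]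
        congr 1
        have := e_neg_mul (θ q)
        simp only [real_smul]
        linear_combination (-(b - a : ℝ) : ℂ) * this
      have n2 : ‖e (-θ q) * (C b - C a)‖ ≤ b - a := by rw [norm_mul, norm_e, one_mul]; exact l1
      rw [n1]
      generalize e (-θ q) * (C b - C a) = w at *
      apply abs_le_of_sq_le_sq' _ (by positivity) |>.2
      have n3 : ‖w‖ ^ 2 ≤ (b - a) ^ 2 := pow_le_pow_left₀ (norm_nonneg _) n2 2
      rw [Complex.sq_norm, normSq_apply] at n3 ⊢
      simp only [sub_re, ofReal_re, sub_im, ofReal_im, sub_zero]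
      nlinarith [mul_le_mul_of_nonneg_left hv2 l0]
    filter_upwards [Metric.ball_mem_nhds q d0] with x hx
    rw [Metric.mem_ball, Real.dist_eq] at hx
    rcases le_total q x with h | h
    · have := est q x (by simpa using d0) hx h
      rw [Real.norm_eq_abs, abs_of_nonneg (by linarith)]
      nlinarith
    · have := est x q hx (by simpa using d0) h
      rw [Real.norm_eq_abs, abs_of_nonpos (by linarith), ← norm_neg]
      have e3 : -(C x - C q - (x - q) • e (θ q)) = C q - C x - (q - x) • e (θ q) := by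
        simp only [real_smul]; push_cast; ring
      rw [e3]; nlinarith
  refine ⟨θ, mono, fun q => ?_, fun q => ?_⟩
  · simp only [hθ, h1, hp q, e_sub_two_pi]; ring
  · rw [integral_eq_of_hasDerivAt_off_countable C (fun x => e (θ x))
      mono.countable_not_continuousAt hC.continuousOn
      (fun x hx => der x (not_not.1 hx.2))]
    · ring
    · apply (intervalIntegrable_const (c := (1 : ℝ))).mono_fun'
        (cont_e.measurable.comp mono.measurable).aestronglyMeasurable
      exact Eventually.of_forall fun x => (norm_e _).le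

end Pool.Agent.H.MP_fd4af6_gt
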