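import Pool.Agent.H.MP_fd4af6_gt.A

open Set Complex MeasureTheory Filter Topology
open scoped Real

namespace Pool.Agent.H.MP_fd4af6_gt

lemma hd_im {f : ℝ → ℂ} {f' : ℂ} {x : ℝ} (h : HasDerivAt f f' x) :
    HasDerivAt (fun x => (f x).im) f'.im x :=
  imCLM.hasFDerivAt.comp_hasDerivAt x h

lemma hd_ec {ϑ : ℝ → ℝ} {ϑ' x : ℝ} (h : HasDerivAt ϑ ϑ' x) :
    HasDerivAt (fun x => e (ϑ x)) (ϑ' * (I * e (ϑ x))) x := by
  have := (hd_e (ϑ x)).scomp x h
  rw [real_smul] at this
  exact this

theorem table (γ : ℝ → ℂ) (Θ κ : ℝ → ℝ) (hγ : ∀ q, HasDerivAt γ (e (Θ q)) q)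
    (hΘ : ∀ q, HasDerivAt Θ (κ q) q) (hκ : ∀ q, 0 < κ q) (h1 : ∀ q, Θ (q + 1) = Θ q + 2 * π)
    (hp : Function.Periodic γ 1) (hs : Function.Surjective Θ) :
    InjOn γ (Ico 0 1) ∧ (∀ q, ‖deriv γ q‖ = 1) ∧
      (∀ q, 0 < ((starRingEnd ℂ) (deriv γ q) * deriv (deriv γ) q).im) ∧
      ∃ K : Set ℂ, Convex ℝ K ∧ IsCompact K ∧ (interior K).Nonempty ∧ range γ = frontier K := by
  have hm : StrictMono Θ := strictMono_of_hasDerivAt_pos hΘ hκ
  have cγ : Continuous γ := continuous_iff_continuousAt.2 fun q => (hγ q).continuousAt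
  have cΘ : Continuous Θ := continuous_iff_continuousAt.2 fun q => (hΘ q).continuousAt
  have pi0 := Real.pi_pos
  have pos : ∀ p q, p < q → q < p + 1 → 0 < (e (-Θ p) * (γ q - γ p)).im := by
    intro p q hpq hq
    set g : ℝ → ℝ := fun x => (e (-Θ p) * (γ x - γ p)).im with hg
    have gd : ∀ x, HasDerivAt g (Real.sin (Θ x - Θ p)) x := by
      intro x
      have := hd_im (((hγ x).sub_const (γ p)).const_mul (e (-Θ p)))
      convert this using 1
      rw [← e_add, e_im]; congr 1; ring
    have gc : Continuous g := continuous_iff_continuousAt.2 fun q => (gd q).continuousAt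
    obtain ⟨m, hmm⟩ := hs (Θ p + π)
    have g0 : g p = 0 := by simp [hg]
    have g1 : g (p + 1) = 0 := by simp [hg, hp p]
    have m0 : p < m := hm.lt_iff_lt.1 (by linarith)
    have m1 : m < p + 1 := hm.lt_iff_lt.1 (by rw [h1]; linarith)
    rcases le_total q m with h | h
    · have : StrictMonoOn g (Icc p m) := by
        apply strictMonoOn_of_deriv_pos (convex_Icc _ _) gc.continuousOn
        intro x hx
        rw [interior_Icc] at hx
        rw [(gd x).deriv]
        exact Real.sin_pos_of_pos_of_lt_pi (by linarith [hm hx.1]) (by linarith [hm hx.2])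
      have := this ⟨le_rfl, m0.le⟩ ⟨hpq.le, h⟩ hpq
      rwa [g0] at this
    · have : StrictAntiOn g (Icc m (p + 1)) := by
        apply strictAntiOn_of_deriv_neg (convex_Icc _ _) gc.continuousOn
        intro x hx
        rw [interior_Icc] at hx
        rw [(gd x).deriv, ← Real.sin_sub_two_pi]
        have a := hm hx.1
        have b := hm hx.2
        rw [h1] at b
        exact Real.sin_neg_of_neg_of_neg_pi_lt (by linarith) (by linarith)
      have := this ⟨h, hq.le⟩ ⟨m1.le, le_rfl⟩ hq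
      rwa [g1] at this
  have red : ∀ p q : ℝ, ∃ y, p ≤ y ∧ y < p + 1 ∧ γ q = γ y := by
    intro p q
    obtain ⟨y, hy, e1⟩ := hp.exists_mem_Ico one_pos q p
    exact ⟨y, hy.1, hy.2, e1⟩
  have nn : ∀ p q, 0 ≤ (e (-Θ p) * (γ q - γ p)).im := by
    intro p q
    obtain ⟨y, y1, y2, e1⟩ := red p q
    rw [e1]
    rcases y1.eq_or_lt with rfl | y1
    · simp
    · exact (pos p y y1 y2).le
  have inj : InjOn γ (Ico 0 1) := by
    intro p hp' q hq h
    by_contra hne
    rcases lt_or_gt_of_ne hne with l | l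
    · have := pos p q l (by linarith [hp'.1, hq.2]); simp [h] at this
    · have := pos q p l (by linarith [hp'.2, hq.1]); simp [h] at this
  have dγ : deriv γ = fun q => e (Θ q) := funext fun q => (hγ q).deriv
  refine ⟨inj, fun q => by rw [dγ]; exact norm_e _, fun q => ?_, ?_⟩
  · rw [dγ, (hd_ec (hΘ q)).deriv, conj_e]
    have := e_neg_mul (Θ q)
    rw [show e (-Θ q) * (κ q * (I * e (Θ q))) = κ q * I by linear_combination (κ q * I) * this]
    simpa using hκ q
  set K : Set ℂ := {z | ∀ q, 0 ≤ (e (-Θ q) * (z - γ q)).im} with hK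
  have clK : IsClosed K := by
    rw [hK, ofPred_forall]
    exact isClosed_iInter fun q => isClosed_le continuous_const (by fun_prop)
  have kper : ∀ z, Function.Periodic (fun q => (e (-Θ q) * (z - γ q)).im) 1 := by
    intro z q; simp only [h1, hp q, e_sub_two_pi]
  have int : ∀ z, (∀ q, 0 < (e (-Θ q) * (z - γ q)).im) → z ∈ interior K := by
    intro z hz
    have kc : Continuous fun q => (e (-Θ q) * (z - γ q)).im :=
      continuous_im.comp ((cont_e.comp cΘ.neg).mul (continuous_const.sub cγ))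
    obtain ⟨q0, -, hq0⟩ := isCompact_Icc.exists_isMinOn (nonempty_Icc.2 zero_le_one)
      (kc.continuousOn (s := Icc 0 1))
    rw [mem_interior_iff_mem_nhds]
    filter_upwards [Metric.ball_mem_nhds z (hz q0)] with w hw q
    obtain ⟨y, hy, e1⟩ := (kper w).exists_mem_Ico₀ one_pos q
    rw [e1]
    have a : (e (-Θ q0) * (z - γ q0)).im ≤ (e (-Θ y) * (z - γ y)).im := hq0 ⟨hy.1, hy.2.le⟩
    have b := abs_im_le_norm (e (-Θ y) * (w - z))
    rw [norm_mul, norm_e, one_mul] at b
    rw [Metric.mem_ball, dist_eq_norm] at hw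
    have c : (e (-Θ y) * (w - γ y)).im = (e (-Θ y) * (z - γ y)).im + (e (-Θ y) * (w - z)).im := by
      rw [← add_im]; congr 1; ring
    have := (abs_le.1 b).1
    linarith
  have bd : ∀ z ∈ K, ∀ q, (e (-Θ q) * (z - γ q)).im = 0 → z = γ q := by
    intro z hz q hq
    have d := hd_im ((hd_ec (hΘ q).neg).mul ((hγ q).const_sub z))
    have mn : IsLocalMin (fun x => (e (-Θ x) * (z - γ x)).im) q :=
      Eventually.of_forall fun x => by simp only [hq]; exact hz x
    have d0 := mn.hasDerivAt_eq_zero d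
    have a := e_neg_mul (Θ q)
    have b : ((-κ q : ℝ) : ℂ) * (I * e (-Θ q)) * (z - γ q) + e (-Θ q) * -e (Θ q) =
        ((-κ q : ℝ) : ℂ) * (I * (e (-Θ q) * (z - γ q))) - 1 := by linear_combination -a
    simp only [Pi.neg_apply] at d0
    rw [b, sub_im, im_ofReal_mul, I_mul_im] at d0
    have c : (e (-Θ q) * (z - γ q)).re = 0 := by
      have := hκ q
      simp only [one_im, sub_zero] at d0
      exact (mul_eq_zero.1 d0).resolve_left (by linarith)
    have : e (-Θ q) * (z - γ q) = 0 := Complex.ext c hq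
    exact sub_eq_zero.1 ((mul_eq_zero.1 this).resolve_left (e_ne _))
  refine ⟨K, ?_, ?_, ?_, ?_⟩
  · intro z hz w hw a b ha hb hab q
    have : e (-Θ q) * (a • z + b • w - γ q) =
        a * (e (-Θ q) * (z - γ q)) + b * (e (-Θ q) * (w - γ q)) := by
      have : (a : ℂ) + b = 1 := by exact_mod_cast hab
      simp only [real_smul]
      linear_combination (e (-Θ q) * γ q) * this
    rw [this, add_im, im_ofReal_mul, im_ofReal_mul]
    exact add_nonneg (mul_nonneg ha (hz q)) (mul_nonneg hb (hw q))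
  · obtain ⟨M, hM⟩ := (isCompact_Icc.image cγ (s := Icc 0 1)).isBounded.exists_norm_le
    apply Metric.isCompact_of_isClosed_isBounded clK
    rw [isBounded_iff_forall_norm_le]
    refine ⟨M, fun z hz => ?_⟩
    obtain ⟨q, hq⟩ := hs (arg z + π / 2)
    obtain ⟨y, y1, y2, e1⟩ := red 0 q
    have a := hM (γ q) ⟨y, ⟨y1, by linarith⟩, e1.symm⟩
    have b := hz q
    have c : z = ‖z‖ * e (arg z) := (norm_mul_exp_arg_mul_I z).symm
    rw [mul_sub, sub_im] at b
    nth_rewrite 1 [c] at b
    rw [rot_im, hq, show arg z - (arg z + π / 2) = -(π / 2) by ring, Real.sin_neg,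
      Real.sin_pi_div_two] at b
    have d := abs_im_le_norm (e (-(arg z + π / 2)) * γ q)
    rw [norm_mul, norm_e, one_mul] at d
    have := (abs_le.1 d).1
    linarith
  · refine ⟨(γ 0 + γ (1 / 2)) / 2, int _ fun q => ?_⟩
    have a := nn q 0
    have b := nn q (1 / 2)
    have c : (e (-Θ q) * ((γ 0 + γ (1 / 2)) / 2 - γ q)).im =
        ((e (-Θ q) * (γ 0 - γ q)).im + (e (-Θ q) * (γ (1 / 2) - γ q)).im) / 2 := by
      rw [← add_im, ← div_ofNat_im]; congr 1; ring
    rw [c]
    by_contra hn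
    have a1 := bd (γ 0) (fun x => nn x 0) q (by linarith)
    have b1 := bd (γ (1 / 2)) (fun x => nn x _) q (by linarith)
    have := inj (x₁ := 0) (x₂ := 1 / 2) (by simp) (by norm_num) (a1.trans b1.symm)
    norm_num at this
  · rw [clK.frontier_eq]
    ext z
    constructor
    · rintro ⟨q, rfl⟩
      refine ⟨fun x => nn x q, fun h => ?_⟩
      obtain ⟨ε, e0, hε⟩ := Metric.mem_nhds_iff.1 (mem_interior_iff_mem_nhds.1 h)
      have := hε (a := γ q - (ε / 2 : ℝ) * (I * e (Θ q))) (by
        rw [Metric.mem_ball, dist_eq_norm, sub_sub_cancel_left, norm_neg, norm_mul, norm_mul,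
          norm_e, norm_I, norm_real, Real.norm_eq_abs, abs_of_pos (by linarith)]
        linarith) q
      have a := e_neg_mul (Θ q)
      rw [show e (-Θ q) * (γ q - (ε / 2 : ℝ) * (I * e (Θ q)) - γ q) = ((-(ε / 2) : ℝ) : ℂ) * I by
        push_cast; linear_combination (-(ε / 2) * I) * a, im_ofReal_mul] at this
      simp at this
      linarith
    · rintro ⟨hz, hn⟩
      by_contra hr
      apply hn (int z fun q => lt_of_le_of_ne (hz q) fun h => hr ⟨q, (bd z hz q h.symm).symm⟩)

end Pool.Agent.H.MP_fd4af6_gt
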