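import Pool.Agent.H.MP_fd4af6_gt.B

open Set Complex MeasureTheory Filter Topology
open scoped Real ContDiff

namespace Pool.Agent.H.MP_fd4af6_gt

lemma ii {θ : ℝ → ℝ} (hθ : Monotone θ) (Φ : ℝ → ℂ) (hΦ : Continuous Φ) (a b : ℝ) :
    IntervalIntegrable (fun x => Φ (θ x)) volume a b := by
  obtain ⟨M, hM⟩ := (isCompact_uIcc.image hΦ (s := uIcc (θ a) (θ b))).isBounded.exists_norm_le
  apply (intervalIntegrable_const (c := M)).mono_fun'
    (hΦ.measurable.comp hθ.measurable).aestronglyMeasurable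
  filter_upwards [ae_restrict_mem measurableSet_uIoc] with x hx
  exact hM _ ⟨θ x, hθ.image_uIcc_subset ⟨x, uIoc_subset_uIcc hx, rfl⟩, rfl⟩

lemma slit {w : ℂ} (hw : ‖w‖ < 1) (t : ℝ) : 1 - w * e t ∈ slitPlane := by
  rw [sub_eq_add_neg]
  exact mem_slitPlane_of_norm_lt_one (by rwa [norm_neg, norm_mul, norm_e, mul_one])

lemma nlow (w : ℂ) (t : ℝ) : 1 - ‖w‖ ≤ ‖1 - w * e t‖ := by
  have := norm_sub_norm_le (1 : ℂ) (w * e t)
  rwa [norm_one, norm_mul, norm_e, mul_one] at this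

noncomputable def L (θ : ℝ → ℝ) (k : ℝ) (w : ℂ) : ℂ :=
  ∫ x in (0 : ℝ)..1, e (k * θ x) * -log (1 - w * e (-θ x))

noncomputable def D (θ : ℝ → ℝ) (k : ℝ) (w : ℂ) : ℂ :=
  ∫ x in (0 : ℝ)..1, e (k * θ x) * (e (-θ x) / (1 - w * e (-θ x)))

lemma cL (k : ℝ) {w : ℂ} (hw : ‖w‖ < 1) :
    Continuous fun t : ℝ => e (k * t) * -log (1 - w * e (-t)) := by
  refine (cont_e.comp (by fun_prop)).mul (Continuous.neg ?_)
  exact Continuous.clog (continuous_const.sub (continuous_const.mul (cont_e.comp continuous_neg)))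
    fun t => slit hw _

lemma cD (k : ℝ) {w : ℂ} (hw : ‖w‖ < 1) :
    Continuous fun t : ℝ => e (k * t) * (e (-t) / (1 - w * e (-t))) := by
  refine (cont_e.comp (by fun_prop)).mul ((cont_e.comp continuous_neg).div
    (continuous_const.sub (continuous_const.mul (cont_e.comp continuous_neg))) fun t => ?_)
  exact slitPlane_ne_zero (slit hw _)

lemma hdL {θ : ℝ → ℝ} (hθ : Monotone θ) (k : ℝ) {w : ℂ} (hw : ‖w‖ < 1) :
    HasDerivAt (L θ k) (D θ k w) w := by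
  obtain ⟨R, r1, r2⟩ := exists_between hw
  have hs : Metric.ball (0 : ℂ) R ∈ 𝓝 w := Metric.isOpen_ball.mem_nhds (by simpa using r1)
  refine (intervalIntegral.hasDerivAt_integral_of_dominated_loc_of_deriv_le
    (F := fun w x => e (k * θ x) * -log (1 - w * e (-θ x)))
    (F' := fun w x => e (k * θ x) * (e (-θ x) / (1 - w * e (-θ x))))
    (bound := fun _ => 1 / (1 - R)) hs ?_ (ii hθ _ (cL k hw) 0 1) ?_ ?_
    intervalIntegrable_const ?_).2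
  · filter_upwards [hs] with z hz
    have : ‖z‖ < 1 := lt_trans (by simpa using hz) r2
    exact ((cL k this).measurable.comp hθ.measurable).aestronglyMeasurable
  · exact ((cD k hw).measurable.comp hθ.measurable).aestronglyMeasurable
  · refine Eventually.of_forall fun x _ z hz => ?_
    have h1 : ‖z‖ < R := by simpa using hz
    have := nlow z (-θ x)
    rw [norm_mul, norm_div, norm_e, norm_e, one_mul]
    exact one_div_le_one_div_of_le (by linarith) (by linarith)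
  · refine Eventually.of_forall fun x _ z hz => ?_
    have h1 : ‖z‖ < 1 := lt_trans (by simpa using hz) r2
    have := ((((hasDerivAt_id z).mul_const (e (-θ x))).const_sub 1).clog
      (slit h1 _)).neg.const_mul (e (k * θ x))
    refine HasDerivAt.congr_deriv this ?_
    simp only [id]; ring

lemma cdL {θ : ℝ → ℝ} (hθ : Monotone θ) (k : ℝ) {w : ℂ} (hw : ‖w‖ < 1) :
    ContDiffAt ℝ ∞ (L θ k) w := by
  have h : DifferentiableOn ℂ (L θ k) (Metric.ball 0 1) := fun z hz =>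
    (hdL hθ k (by simpa using hz)).differentiableAt.differentiableWithinAt
  have := h.analyticAt (Metric.isOpen_ball.mem_nhds (show w ∈ Metric.ball 0 1 by simpa using hw))
  exact (this.contDiffAt (n := ∞)).restrict_scalars ℝ

lemma D1 {θ : ℝ → ℝ} (hθ : Monotone θ) {w : ℂ} (hw : ‖w‖ < 1) :
    D θ 1 w = 1 + w * D θ 0 w := by
  rw [← sub_eq_iff_eq_add, D, D, ← intervalIntegral.integral_const_mul,
    ← intervalIntegral.integral_sub (ii hθ _ (cD 1 hw) 0 1)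
      ((ii hθ _ (cD 0 hw) 0 1).const_mul w)]
  have : ∀ x, e (1 * θ x) * (e (-θ x) / (1 - w * e (-θ x))) -
      w * (e (0 * θ x) * (e (-θ x) / (1 - w * e (-θ x)))) = 1 := by
    intro x
    have a := slitPlane_ne_zero (slit hw (-θ x))
    have b := e_neg_mul (θ x)
    rw [one_mul, zero_mul, e_zero]
    linear_combination (1 - w * e (-θ x))⁻¹ * b + mul_inv_cancel₀ a
  simp only [this]; simp

lemma D2 {θ : ℝ → ℝ} (hθ : Monotone θ) (h0 : ∫ x in (0 : ℝ)..1, e (-θ x) = 0) {w : ℂ}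
    (hw : ‖w‖ < 1) : D θ 0 w = w * D θ (-1) w := by
  rw [← sub_eq_zero, D, D, ← intervalIntegral.integral_const_mul,
    ← intervalIntegral.integral_sub (ii hθ _ (cD 0 hw) 0 1)
      ((ii hθ _ (cD (-1) hw) 0 1).const_mul w), ← h0]
  congr 1
  funext x
  have a := slitPlane_ne_zero (slit hw (-θ x))
  rw [neg_one_mul, zero_mul, e_zero]
  linear_combination e (-θ x) * mul_inv_cancel₀ a

noncomputable def F (θ : ℝ → ℝ) (r t : ℝ) : ℝ :=
  t / (2 * π) + (L θ 0 (r * e t)).im / π + (1 / 2 - (∫ x in (0 : ℝ)..1, θ x) / (2 * π))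

noncomputable def X (θ : ℝ → ℝ) (r t : ℝ) : ℂ :=
  (L θ 1 (r * e t) / (I * r) + I * r * (starRingEnd ℂ) (L θ (-1) (r * e t))) / (2 * π)

noncomputable def E (θ : ℝ → ℝ) (r t : ℝ) : ℂ :=
  ((r * e t - L θ 1 (r * e t)) / (I * r ^ 2) + I * (starRingEnd ℂ) (L θ (-1) (r * e t))) / (2 * π)

noncomputable def f (θ : ℝ → ℝ) (r t : ℝ) : ℝ :=
  (1 + 2 * (r * e t * D θ 0 (r * e t)).re) / (2 * π)

lemma nW {r : ℝ} (h0 : 0 < r) (h1 : r < 1) (t : ℝ) : ‖r * e t‖ < 1 := by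
  rwa [norm_mul, norm_e, mul_one, norm_real, Real.norm_eq_abs, abs_of_pos h0]

lemma f_pos {θ : ℝ → ℝ} (hθ : Monotone θ) {r : ℝ} (h0 : 0 < r) (h1 : r < 1) (t : ℝ) :
    0 < f θ r t := by
  have hw := nW h0 h1 t
  have nw : ‖r * e t‖ = r := by
    rw [norm_mul, norm_e, mul_one, norm_real, Real.norm_eq_abs, abs_of_pos h0]
  unfold f
  generalize (r : ℂ) * e t = w at *
  refine div_pos ?_ (by positivity)
  have i1 := (ii hθ _ (cD 0 hw) 0 1).const_mul w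
  have a := reCLM.intervalIntegral_comp_comm i1
  rw [intervalIntegral.integral_const_mul] at a
  have b : ∫ _ in (0 : ℝ)..1, ((1 - r ^ 2) / 8 - 1 / 2) ≤
      ∫ x in (0 : ℝ)..1, reCLM (w * (e (0 * θ x) * (e (-θ x) / (1 - w * e (-θ x))))) := by
    apply intervalIntegral.integral_mono_on zero_le_one intervalIntegrable_const
      ⟨reCLM.integrable_comp i1.1, reCLM.integrable_comp i1.2⟩
    intro x _
    rw [zero_mul, e_zero, one_mul, ← mul_div_assoc, reCLM_apply]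
    have c := slitPlane_ne_zero (slit hw (-θ x))
    have nz : ‖w * e (-θ x)‖ = r := by rw [norm_mul, norm_e, mul_one, nw]
    generalize w * e (-θ x) = z at *
    have n2 : z.re * z.re + z.im * z.im = r ^ 2 := by rw [← nz, Complex.sq_norm, normSq_apply]
    have p := normSq_pos.2 c
    rw [div_re, ← add_div, le_div_iff₀ p]
    rw [normSq_apply] at p ⊢
    simp only [sub_re, one_re, sub_im, one_im, zero_sub] at p ⊢
    have q : (1 - z.re) * (1 - z.re) + -z.im * -z.im ≤ 4 := by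
      have := (abs_le.1 (abs_re_le_norm z)).1
      nlinarith
    have r2 : 0 ≤ 1 - r ^ 2 := by nlinarith
    nlinarith [mul_le_mul_of_nonneg_left q r2]
  rw [a] at b
  simp only [intervalIntegral.integral_const, sub_zero, one_smul, reCLM_apply] at b
  have r2 : 0 < 1 - r ^ 2 := by nlinarith
  unfold D
  linarith

lemma hdW {ρ ϑ : ℝ → ℝ} {ρ' ϑ' s : ℝ} (hρ : HasDerivAt ρ ρ' s) (hϑ : HasDerivAt ϑ ϑ' s) :
    HasDerivAt (fun s => (ρ s : ℂ) * e (ϑ s)) (ρ' * e (ϑ s) + ρ s * (ϑ' * (I * e (ϑ s)))) s :=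
  hρ.ofReal_comp.mul (hd_ec hϑ)

lemma hdLW {θ : ℝ → ℝ} (hθ : Monotone θ) (k : ℝ) {ρ ϑ : ℝ → ℝ} {ρ' ϑ' s : ℝ}
    (hρ : HasDerivAt ρ ρ' s) (hϑ : HasDerivAt ϑ ϑ' s) (h0 : 0 < ρ s) (h1 : ρ s < 1) :
    HasDerivAt (fun s => L θ k (ρ s * e (ϑ s)))
      (D θ k (ρ s * e (ϑ s)) * (ρ' * e (ϑ s) + ρ s * (ϑ' * (I * e (ϑ s))))) s := by
  have a := (hdL hθ k (nW h0 h1 (ϑ s))).hasFDerivAt.restrictScalars ℝ
  have := a.comp_hasDerivAt s (hdW hρ hϑ)
  refine HasDerivAt.congr_deriv this ?_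
  simp [mul_comm]

lemma chainF {θ : ℝ → ℝ} (hθ : Monotone θ) {ρ ϑ : ℝ → ℝ} {ρ' ϑ' s : ℝ}
    (hρ : HasDerivAt ρ ρ' s) (hϑ : HasDerivAt ϑ ϑ' s) (h0 : 0 < ρ s) (h1 : ρ s < 1) :
    HasDerivAt (fun s => F θ (ρ s) (ϑ s)) (ϑ' / (2 * π) +
      (D θ 0 (ρ s * e (ϑ s)) * (ρ' * e (ϑ s) + ρ s * (ϑ' * (I * e (ϑ s))))).im / π) s :=
  ((hϑ.div_const _).add ((hd_im (hdLW hθ 0 hρ hϑ h0 h1)).div_const _)).add_const _

lemma chainF0 {θ : ℝ → ℝ} (hθ : Monotone θ) {ϑ : ℝ → ℝ} {r ϑ' s : ℝ}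
    (hϑ : HasDerivAt ϑ ϑ' s) (h0 : 0 < r) (h1 : r < 1) :
    HasDerivAt (fun s => F θ r (ϑ s)) (ϑ' * f θ r (ϑ s)) s := by
  have := chainF hθ (hasDerivAt_const s r) hϑ h0 h1
  convert this using 1
  have a : D θ 0 (r * e (ϑ s)) * (((0 : ℝ) : ℂ) * e (ϑ s) + r * (ϑ' * (I * e (ϑ s)))) =
      ϑ' * (I * (r * e (ϑ s) * D θ 0 (r * e (ϑ s)))) := by push_cast; ring
  rw [a, im_ofReal_mul, I_mul_im, f]
  field_simp

lemma chainX {θ : ℝ → ℝ} (hθ : Monotone θ) (hz : ∫ x in (0 : ℝ)..1, e (-θ x) = 0)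
    {ρ ϑ : ℝ → ℝ} {ρ' ϑ' s d : ℝ}
    (hρ : HasDerivAt ρ ρ' s) (hϑ : HasDerivAt ϑ ϑ' s) (h0 : 0 < ρ s) (h1 : ρ s < 1)
    (hd : HasDerivAt (fun s => F θ (ρ s) (ϑ s)) d s) :
    HasDerivAt (fun s => X θ (ρ s) (ϑ s)) (d * e (ϑ s) + ρ' * E θ (ρ s) (ϑ s)) s := by
  have a := hd.unique (chainF hθ hρ hϑ h0 h1)
  have r0 : (ρ s : ℂ) ≠ 0 := by exact_mod_cast h0.ne'
  have b1 := (hdLW hθ 1 hρ hϑ h0 h1).div (hρ.ofReal_comp.const_mul I) (mul_ne_zero I_ne_zero r0)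
  have b2 := (hρ.ofReal_comp.const_mul I).mul
    (conjCLE.toContinuousLinearMap.hasFDerivAt.comp_hasDerivAt s (hdLW hθ (-1) hρ hϑ h0 h1))
  have := (b1.add b2).div_const (2 * π)
  refine HasDerivAt.congr_deriv this ?_
  have w := nW h0 h1 (ϑ s)
  have p0 : (π : ℂ) ≠ 0 := by exact_mod_cast Real.pi_ne_zero
  have c := e_neg_mul (ϑ s)
  have c0 := e_ne (ϑ s)
  have c2 : e (-ϑ s) = (e (ϑ s))⁻¹ := eq_inv_of_mul_eq_one_left c
  rw [a, D1 hθ w, D2 hθ hz w, E]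
  simp only [ofReal_add, ofReal_div, im_eq_sub_conj, Function.comp, ContinuousLinearEquiv.coe_coe,
    conjCLE_apply, map_mul, map_add, conj_ofReal, conj_e, conj_I, c2, ofReal_mul, ofReal_ofNat]
  field_simp
  ring_nf
  simp only [I_sq, I_pow_three]
  ring

lemma cdW {θ : ℝ → ℝ} (hθ : Monotone θ) (k : ℝ) {ρ : ℝ → ℝ} (hρ : ContDiff ℝ ∞ ρ)
    (h0 : ∀ s, 0 < ρ s) (h1 : ∀ s, ρ s < 1) :
    ContDiff ℝ ∞ fun p : ℝ × ℝ => L θ k (ρ p.1 * e p.2) := by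
  have a : ContDiff ℝ ∞ fun p : ℝ × ℝ => (ρ p.1 : ℂ) * e p.2 := by
    refine (ofRealCLM.contDiff.comp (hρ.comp contDiff_fst)).mul ?_
    exact ((ofRealCLM.contDiff.comp contDiff_snd).mul contDiff_const).cexp
  exact contDiff_iff_contDiffAt.2 fun p =>
    ContDiffAt.comp (g := L θ k) (f := fun p : ℝ × ℝ => (ρ p.1 : ℂ) * e p.2) p
      (cdL hθ k (nW (h0 p.1) (h1 p.1) p.2)) a.contDiffAt

lemma cdF {θ : ℝ → ℝ} (hθ : Monotone θ) {ρ : ℝ → ℝ} (hρ : ContDiff ℝ ∞ ρ)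
    (h0 : ∀ s, 0 < ρ s) (h1 : ∀ s, ρ s < 1) :
    ContDiff ℝ ∞ fun p : ℝ × ℝ => F θ (ρ p.1) p.2 :=
  ((contDiff_snd.div_const _).add
    ((imCLM.contDiff.comp (cdW hθ 0 hρ h0 h1)).div_const _)).add contDiff_const

lemma cdX {θ : ℝ → ℝ} (hθ : Monotone θ) {ρ : ℝ → ℝ} (hρ : ContDiff ℝ ∞ ρ)
    (h0 : ∀ s, 0 < ρ s) (h1 : ∀ s, ρ s < 1) :
    ContDiff ℝ ∞ fun p : ℝ × ℝ => X θ (ρ p.1) p.2 := by
  have a : ContDiff ℝ ∞ fun p : ℝ × ℝ => I * (ρ p.1 : ℂ) :=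
    contDiff_const.mul (ofRealCLM.contDiff.comp (hρ.comp contDiff_fst))
  have b : ContDiff ℝ ∞ fun p : ℝ × ℝ => (I * (ρ p.1 : ℂ))⁻¹ :=
    a.inv fun p => mul_ne_zero I_ne_zero (by exact_mod_cast (h0 p.1).ne')
  exact (((cdW hθ 1 hρ h0 h1).mul b).add
    (a.mul (conjCLE.contDiff.comp (cdW hθ (-1) hρ h0 h1)))).div_const _

lemma L_bound (θ : ℝ → ℝ) (k σ t : ℝ) (h0 : 0 < σ) (h1 : σ ≤ 1 / 2) :
    σ * ‖L θ k ((1 - σ ^ 2 : ℝ) * e t)‖ ≤ 5 := by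
  have nw : ‖((1 - σ ^ 2 : ℝ) : ℂ) * e t‖ = 1 - σ ^ 2 := by
    rw [norm_mul, norm_e, mul_one, norm_real, Real.norm_eq_abs, abs_of_pos (by nlinarith)]
  generalize ((1 - σ ^ 2 : ℝ) : ℂ) * e t = w at *
  have : ‖L θ k w‖ ≤ (5 / σ) * |1 - 0| := by
    apply intervalIntegral.norm_integral_le_of_norm_le_const
    intro x _
    rw [norm_mul, norm_e, one_mul, norm_neg]
    have a := nlow w (-θ x)
    have b : ‖1 - w * e (-θ x)‖ ≤ 2 := by
      have := norm_sub_le (1 : ℂ) (w * e (-θ x))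
      rw [norm_one, norm_mul, norm_e, mul_one, nw] at this
      nlinarith
    generalize 1 - w * e (-θ x) = y at *
    have c := norm_le_abs_re_add_abs_im (log y)
    rw [log_re, log_im] at c
    have d := abs_arg_le_pi y
    have s2 : 0 < σ ^ 2 := by positivity
    have y0 : 0 < ‖y‖ := by linarith
    have l1 := Real.log_le_sub_one_of_pos y0
    have l2 := Real.log_le_log s2 (show σ ^ 2 ≤ ‖y‖ by linarith)
    rw [Real.log_pow] at l2
    have l3 := Real.one_sub_inv_le_log_of_pos h0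
    have i2 : 2 ≤ σ⁻¹ := by rw [le_inv_comm₀ two_pos h0]; linarith
    have : |Real.log ‖y‖| ≤ 2 * σ⁻¹ := by
      rw [abs_le]; push_cast at l2; constructor <;> linarith
    rw [div_eq_mul_inv]
    linarith [Real.pi_le_four]
  rw [sub_zero, abs_one, mul_one, le_div_iff₀ h0] at this
  linarith

lemma E_bound (θ : ℝ → ℝ) (σ t : ℝ) (h0 : 0 < σ) (h1 : σ ≤ 1 / 2) :
    σ * ‖E θ (1 - σ ^ 2) t‖ ≤ 17 := by
  have a := L_bound θ 1 σ t h0 h1
  have b := L_bound θ (-1) σ t h0 h1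
  have r0 : 3 / 4 ≤ 1 - σ ^ 2 := by nlinarith
  have nw : ‖((1 - σ ^ 2 : ℝ) : ℂ) * e t‖ ≤ 1 := (nW (by linarith) (by nlinarith) t).le
  unfold E
  generalize 1 - σ ^ 2 = r at *
  generalize (r : ℂ) * e t = w at *
  have p : (1 : ℝ) ≤ ‖(2 * π : ℂ)‖ := by
    rw [norm_mul, norm_real, Real.norm_eq_abs, abs_of_pos Real.pi_pos]
    simp only [Complex.norm_ofNat]
    linarith [Real.pi_gt_three]
  have c := div_le_self (norm_nonneg ((w - L θ 1 w) / (I * r ^ 2) +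
    I * (starRingEnd ℂ) (L θ (-1) w))) p
  have d := norm_add_le ((w - L θ 1 w) / (I * r ^ 2)) (I * (starRingEnd ℂ) (L θ (-1) w))
  rw [norm_div, norm_mul, norm_mul, norm_I, one_mul, one_mul, norm_conj, norm_pow, norm_real,
    Real.norm_eq_abs, sq_abs] at d
  have g : ‖w - L θ 1 w‖ / r ^ 2 ≤ 2 * (1 + ‖L θ 1 w‖) := by
    rw [div_le_iff₀ (by positivity)]
    have := norm_sub_le w (L θ 1 w)
    have := norm_nonneg (L θ 1 w)
    have : 1 / 2 ≤ r ^ 2 := by nlinarith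
    nlinarith
  rw [norm_div]
  have := mul_le_mul_of_nonneg_left (c.trans (d.trans (add_le_add g le_rfl))) h0.le
  nlinarith

end Pool.Agent.H.MP_fd4af6_gt
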