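import Pool.Agent.H.MP_fd4af6_gt.C

open Set Complex MeasureTheory Filter Topology
open scoped Real ContDiff

namespace Pool.Agent.H.MP_fd4af6_gt

lemma inv_smooth (Φ : ℝ × ℝ → ℝ) (hΦ : ContDiff ℝ ∞ Φ)
    (hd : ∀ s t, ∃ c, c ≠ 0 ∧ HasDerivAt (fun t => Φ (s, t)) c t) (Θ : ℝ → ℝ → ℝ)
    (h1 : ∀ s q, Φ (s, Θ s q) = q) (h2 : ∀ s t, Θ s (Φ (s, t)) = t) :
    ContDiff ℝ ∞ fun p : ℝ × ℝ => Θ p.1 p.2 := by
  let Ψ : ℝ × ℝ ≃ ℝ × ℝ :=
    ⟨fun p => (p.1, Φ p), fun p => (p.1, Θ p.1 p.2), fun p => by simp [h2], fun p => by simp [h1]⟩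
  have cΨ : ContDiff ℝ ∞ Ψ := contDiff_fst.prodMk hΦ
  have key : ∀ p, ∃ A : (ℝ × ℝ) ≃L[ℝ] (ℝ × ℝ),
      HasStrictFDerivAt Ψ (A : (ℝ × ℝ) →L[ℝ] (ℝ × ℝ)) p := by
    rintro ⟨s, t⟩
    have a := cΨ.contDiffAt.hasStrictFDerivAt (x := (s, t)) (by simp)
    obtain ⟨c, c0, hc⟩ := hd s t
    have inj : Function.Injective (fderiv ℝ Ψ (s, t)).toLinearMap := by
      rw [injective_iff_map_eq_zero]
      rintro ⟨v1, v2⟩ hv
      have b := hΦ.contDiffAt.hasStrictFDerivAt (x := (s, t)) (by simp)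
      have b2 := (hasStrictFDerivAt_fst.prodMk b).hasFDerivAt.unique a.hasFDerivAt
      rw [ContinuousLinearMap.coe_coe, ← b2] at hv
      have v0 : v1 = 0 := congrArg Prod.fst hv
      have v3 : fderiv ℝ Φ (s, t) (v1, v2) = 0 := congrArg Prod.snd hv
      have b3 := b.hasFDerivAt.comp_hasDerivAt t
        ((hasDerivAt_const t s).prodMk (hasDerivAt_id t))
      have b4 : fderiv ℝ Φ (s, t) (0, 1) = c := b3.unique hc
      have : ((v1, v2) : ℝ × ℝ) = v2 • ((0, 1) : ℝ × ℝ) := by simp [v0]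
      rw [this, map_smul, b4, smul_eq_mul] at v3
      simp [(mul_eq_zero.1 v3).resolve_right c0, v0]
    exact ⟨(LinearEquiv.ofInjectiveEndo _ inj).toContinuousLinearEquiv, a⟩
  choose A hA using key
  have := (Ψ.toHomeomorphOfContinuousOpen cΨ.continuous
    (isOpenMap_of_hasStrictFDerivAt_equiv hA)).contDiff_symm (fun p => (hA p).hasFDerivAt) cΨ
  exact contDiff_snd.comp this

noncomputable def G (r τ : ℝ) : ℝ := τ / (2 * π) + (-log (1 - r * e τ)).im / π + 1 / 2

lemma F_mono {θ : ℝ → ℝ} (hθ : Monotone θ) {r : ℝ} (h0 : 0 < r) (h1 : r < 1) :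
    StrictMono (F θ r) :=
  strictMono_of_hasDerivAt_pos (fun t => chainF0 hθ (hasDerivAt_id t) h0 h1)
    fun t => by simpa using f_pos hθ h0 h1 t

lemma G_mono {r : ℝ} (h0 : 0 < r) (h1 : r < 1) : Monotone (G r) := by
  have : G r = F (fun _ => 0) r := by
    funext t; simp [G, F, L, e_zero]
  rw [this]
  exact (F_mono monotone_const h0 h1).monotone

lemma G_per (r τ : ℝ) : G r (τ - 2 * π) = G r τ - 1 := by
  have : e (τ - 2 * π) = e τ := by rw [← e_two_pi]; congr 1; ring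
  simp only [G, this]
  field_simp
  ring

lemma G_neg {r : ℝ} (h0 : 0 < r) (h1 : r < 1) (τ : ℝ) : G r (-τ) = 1 - G r τ := by
  have a : 1 - r * e (-τ) = (starRingEnd ℂ) (1 - r * e τ) := by
    rw [map_sub, map_mul, conj_e, conj_ofReal, map_one]
  have b := slit (w := r) (by rwa [norm_real, Real.norm_eq_abs, abs_of_pos h0]) τ
  simp only [G, a]
  rw [log_conj _ (slitPlane_arg_ne_pi b)]
  simp only [neg_im, conj_im]
  ring

lemma G_lim {η : ℝ} (h0 : 0 < η) (h1 : η < π) :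
    Tendsto (fun r => G r η) (𝓝 1) (𝓝 1) := by
  have s0 : 0 < 2 * Real.sin (η / 2) :=
    mul_pos two_pos (Real.sin_pos_of_pos_of_lt_pi (by linarith) (by linarith))
  have a : 1 - ((1 : ℝ) : ℂ) * e η = ((2 * Real.sin (η / 2) : ℝ) : ℂ) *
      (cos ((η - π) / 2 : ℝ) + sin ((η - π) / 2 : ℝ) * I) := by
    have c : Real.cos ((η - π) / 2) = Real.sin (η / 2) := by
      rw [← Real.cos_neg, ← Real.cos_pi_div_two_sub]; congr 1; ring
    have s : Real.sin ((η - π) / 2) = -Real.cos (η / 2) := by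
      rw [← Real.sin_pi_div_two_sub, ← Real.sin_neg]; congr 1; ring
    have c2 : Real.cos η = 1 - 2 * Real.sin (η / 2) ^ 2 := by
      rw [← Real.cos_two_mul_eq_one_sub]; congr 1; ring
    have s2 : Real.sin η = 2 * Real.sin (η / 2) * Real.cos (η / 2) := by
      rw [← Real.sin_two_mul]; congr 1; ring
    rw [← ofReal_cos, ← ofReal_sin, c, s]
    apply Complex.ext
    · simp only [sub_re, one_re, ofReal_one, one_mul, e_re, c2, re_ofReal_mul, add_re, ofReal_re,
        I_re]; ring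
    · simp only [sub_im, one_im, ofReal_one, one_mul, e_im, s2, im_ofReal_mul, add_im, ofReal_im,
        I_im]; ring
  have b : arg (1 - ((1 : ℝ) : ℂ) * e η) = (η - π) / 2 := by
    rw [a]; exact arg_mul_cos_add_sin_mul_I s0 ⟨by linarith, by linarith⟩
  have c : 1 - ((1 : ℝ) : ℂ) * e η ∈ slitPlane := by
    rw [mem_slitPlane_iff_arg, b, a]
    refine ⟨by linarith, mul_ne_zero (by exact_mod_cast s0.ne') ?_⟩
    rw [← exp_mul_I]; exact exp_ne_zero _
  have d : ContinuousAt (fun r : ℝ => G r η) 1 := by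
    unfold G
    have : ContinuousAt (fun r : ℝ => log (1 - r * e η)) 1 :=
      ContinuousAt.clog (f := fun r : ℝ => 1 - r * e η) (by fun_prop) c
    exact (continuousAt_const.add ((continuous_im.continuousAt.comp this.neg).div_const _)).add
      continuousAt_const
  have g : G 1 η = 1 := by
    unfold G
    rw [neg_im, log_im, b]
    field_simp
    ring
  simpa only [ContinuousAt, g] using d

lemma F_eq {θ : ℝ → ℝ} (hθ : Monotone θ) (hp : ∀ q, θ (q + 1) = θ q + 2 * π) {r : ℝ}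
    (h0 : 0 < r) (h1 : r < 1) (t y : ℝ) :
    F θ r t = y + ∫ x in y..y + 1, G r (t - θ x) := by
  have an : Antitone fun x => G r (t - θ x) := fun a b h =>
    G_mono h0 h1 (by linarith [hθ h])
  have per : Function.Periodic (fun x => G r (t - θ x) + x) 1 := by
    intro x
    simp only [hp, ← sub_sub]
    rw [G_per]; ring
  have a := per.intervalIntegral_add_eq y 0
  rw [intervalIntegral.integral_add an.intervalIntegrable intervalIntegral.intervalIntegrable_id,
    intervalIntegral.integral_add an.intervalIntegrable intervalIntegral.intervalIntegrable_id,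
    integral_id, integral_id, zero_add] at a
  have b : F θ r t = ∫ x in (0 : ℝ)..1, G r (t - θ x) := by
    have i1 := ii hθ _ (cL 0 (nW h0 h1 t)) 0 1
    have c := imCLM.intervalIntegral_comp_comm i1
    have i2 : IntervalIntegrable (fun x => imCLM (e (0 * θ x) * -log (1 - r * e t * e (-θ x))))
      volume 0 1 := ⟨imCLM.integrable_comp i1.1, imCLM.integrable_comp i1.2⟩
    have d : ∀ x, G r (t - θ x) = (t / (2 * π) + 1 / 2) - θ x / (2 * π) +
        imCLM (e (0 * θ x) * -log (1 - r * e t * e (-θ x))) / π := by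
      intro x
      rw [zero_mul, e_zero, one_mul, mul_assoc, ← e_add, G, imCLM_apply, ← sub_eq_add_neg]
      ring
    simp only [d]
    rw [intervalIntegral.integral_add (intervalIntegrable_const.sub
      (hθ.intervalIntegrable.div_const _)) (i2.div_const _), intervalIntegral.integral_sub
      intervalIntegrable_const (hθ.intervalIntegrable.div_const _), intervalIntegral.integral_div,
      intervalIntegral.integral_div, c]
    simp only [F, L, intervalIntegral.integral_const, sub_zero, one_smul, imCLM_apply]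
    ring
  rw [b]; linarith

lemma F_per (θ : ℝ → ℝ) (r t : ℝ) : F θ r (t + 2 * π) = F θ r t + 1 := by
  simp only [F, e_two_pi]
  field_simp
  ring

lemma F_surj {θ : ℝ → ℝ} (hθ : Monotone θ) {r : ℝ} (h0 : 0 < r) (h1 : r < 1) :
    Function.Surjective (F θ r) := by
  have c : Continuous (F θ r) := continuous_iff_continuousAt.2 fun t =>
    (chainF0 hθ (hasDerivAt_id t) h0 h1).continuousAt
  have per : Function.Periodic (fun t => F θ r t - t / (2 * π)) (2 * π) := by
    intro t; simp only [F_per]; field_simp; ring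
  have hn : ∀ n : ℤ, F θ r (n * (2 * π)) = F θ r 0 + n := by
    intro n
    have := per.int_mul n 0
    simp only [zero_add, zero_div, sub_zero] at this
    rw [mul_div_assoc, div_self (by positivity), mul_one] at this
    linarith
  intro q
  apply intermediate_value_univ (⌊q - F θ r 0⌋ * (2 * π)) (⌈q - F θ r 0⌉ * (2 * π)) c
  rw [hn, hn]
  exact ⟨by linarith [Int.floor_le (q - F θ r 0)], by linarith [Int.le_ceil (q - F θ r 0)]⟩

noncomputable def Th (θ : ℝ → ℝ) (r : ℝ) : ℝ → ℝ := Function.invFun (F θ r)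

lemma F_Th {θ : ℝ → ℝ} (hθ : Monotone θ) {r : ℝ} (h0 : 0 < r) (h1 : r < 1) (q : ℝ) :
    F θ r (Th θ r q) = q := Function.rightInverse_invFun (F_surj hθ h0 h1) q

lemma Th_F {θ : ℝ → ℝ} (hθ : Monotone θ) {r : ℝ} (h0 : 0 < r) (h1 : r < 1) (t : ℝ) :
    Th θ r (F θ r t) = t := Function.leftInverse_invFun (F_mono hθ h0 h1).injective t

attribute [local irreducible] F X Th L

lemma cdTh {θ : ℝ → ℝ} (hθ : Monotone θ) {ρ : ℝ → ℝ} (hρ : ContDiff ℝ ∞ ρ)
    (h0 : ∀ s, 0 < ρ s) (h1 : ∀ s, ρ s < 1) :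
    ContDiff ℝ ∞ fun p : ℝ × ℝ => Th θ (ρ p.1) p.2 := by
  refine inv_smooth (fun p : ℝ × ℝ => F θ (ρ p.1) p.2) (cdF hθ hρ h0 h1) (fun s t => ?_)
    (fun s => Th θ (ρ s)) (fun s q => F_Th hθ (h0 s) (h1 s) q) fun s t => Th_F hθ (h0 s) (h1 s) t
  exact ⟨1 * f θ (ρ s) t, by simpa using (f_pos hθ (h0 s) (h1 s) t).ne',
    chainF0 hθ (hasDerivAt_id' t) (h0 s) (h1 s)⟩

lemma Th_close {θ : ℝ → ℝ} (hθ : Monotone θ) (hp : ∀ q, θ (q + 1) = θ q + 2 * π) {r η ε : ℝ}
    (h0 : 0 < r) (h1 : r < 1) (hε : 0 ≤ ε) (hG : 1 - ε ≤ G r η) (q : ℝ) :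
    |Th θ r q - θ q| ≤ θ (q + ε) - θ (q - ε) + η := by
  have an : ∀ t, Antitone fun x => G r (t - θ x) := fun t a b h =>
    G_mono h0 h1 (by linarith [hθ h])
  have lo : q ≤ F θ r (θ (q + ε) + η) := by
    rw [F_eq hθ hp h0 h1 _ (q + ε - 1)]
    have := intervalIntegral.integral_mono_on (μ := volume) (a := q + ε - 1) (b := q + ε - 1 + 1)
      (f := fun _ => G r η) (by linarith) intervalIntegrable_const
      (an (θ (q + ε) + η)).intervalIntegrable fun x hx =>
        G_mono h0 h1 (by linarith [hθ (show x ≤ q + ε by linarith [hx.2])])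
    simp only [intervalIntegral.integral_const, add_sub_cancel_left, one_smul] at this
    linarith
  have hi : F θ r (θ (q - ε) - η) ≤ q := by
    rw [F_eq hθ hp h0 h1 _ (q - ε)]
    have := intervalIntegral.integral_mono_on (μ := volume) (a := q - ε) (b := q - ε + 1)
      (g := fun _ => G r (-η)) (by linarith)
      (an (θ (q - ε) - η)).intervalIntegrable intervalIntegrable_const fun x hx =>
        G_mono h0 h1 (by linarith [hθ hx.1])
    simp only [intervalIntegral.integral_const, add_sub_cancel_left, one_smul] at this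
    rw [G_neg h0 h1] at this
    linarith
  rw [← F_Th hθ h0 h1 q] at lo hi
  nth_rewrite 2 [F_Th hθ h0 h1 q] at lo
  nth_rewrite 1 [F_Th hθ h0 h1 q] at hi
  have a := (F_mono hθ h0 h1).le_iff_le.1 lo
  have b := (F_mono hθ h0 h1).le_iff_le.1 hi
  have c := hθ (show q ≤ q + ε by linarith)
  have d := hθ (show q - ε ≤ q by linarith)
  rw [abs_le]; constructor <;> linarith

noncomputable def Gm (θ : ℝ → ℝ) (c : ℂ) (r q : ℝ) : ℂ :=
  c + (X θ r (Th θ r q) - X θ r (Th θ r 0))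

lemma cdGm {θ : ℝ → ℝ} (hθ : Monotone θ) (c : ℂ) {ρ : ℝ → ℝ} (hρ : ContDiff ℝ ∞ ρ)
    (h0 : ∀ s, 0 < ρ s) (h1 : ∀ s, ρ s < 1) :
    ContDiff ℝ ∞ fun p : ℝ × ℝ => Gm θ c (ρ p.1) p.2 := by
  have a := (cdX hθ hρ h0 h1).comp (contDiff_fst.prodMk (cdTh hθ hρ h0 h1))
  have a1 : ContDiff ℝ ∞ fun p : ℝ × ℝ => X θ (ρ p.1) (Th θ (ρ p.1) p.2) := a
  have a2 : ContDiff ℝ ∞ fun p : ℝ × ℝ => X θ (ρ p.1) (Th θ (ρ p.1) 0) :=
    a1.comp (contDiff_fst.prodMk (contDiff_const (c := (0 : ℝ))))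
  exact contDiff_const.add (a1.sub a2)

lemma Th_der {θ : ℝ → ℝ} (hθ : Monotone θ) {r : ℝ} (h0 : 0 < r) (h1 : r < 1) (q : ℝ) :
    HasDerivAt (Th θ r) (deriv (Th θ r) q) q := by
  have a := (cdTh hθ (ρ := fun _ => r) contDiff_const (fun _ => h0) fun _ => h1).comp
    ((contDiff_const (c := (0 : ℝ))).prodMk contDiff_id)
  exact ((a.differentiable (by simp)) q).hasDerivAt

lemma Gm_der {θ : ℝ → ℝ} (hθ : Monotone θ) (hz : ∫ x in (0 : ℝ)..1, e (-θ x) = 0) (c : ℂ)
    {r : ℝ} (h0 : 0 < r) (h1 : r < 1) (q : ℝ) : HasDerivAt (Gm θ c r) (e (Th θ r q)) q := by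
  have := chainX hθ hz (hasDerivAt_const q r) (Th_der hθ h0 h1 q) h0 h1 (d := 1)
    (by simp only [F_Th hθ h0 h1]; exact hasDerivAt_id q)
  refine HasDerivAt.congr_deriv ((this.sub_const _).const_add c) ?_
  simp

lemma Th_per {θ : ℝ → ℝ} (hθ : Monotone θ) {r : ℝ} (h0 : 0 < r) (h1 : r < 1) (q : ℝ) :
    Th θ r (q + 1) = Th θ r q + 2 * π := by
  nth_rewrite 1 [← F_Th hθ h0 h1 q]
  rw [← F_per, Th_F hθ h0 h1]

lemma Gm_per {θ : ℝ → ℝ} (hθ : Monotone θ) (c : ℂ) {r : ℝ} (h0 : 0 < r) (h1 : r < 1) :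
    Function.Periodic (Gm θ c r) 1 := by
  intro q
  simp only [Gm, Th_per hθ h0 h1, X, e_two_pi]

lemma Gm_table {θ : ℝ → ℝ} (hθ : Monotone θ) (hz : ∫ x in (0 : ℝ)..1, e (-θ x) = 0) (c : ℂ)
    {r : ℝ} (h0 : 0 < r) (h1 : r < 1) :
    ContDiff ℝ ∞ (Gm θ c r) ∧ Function.Periodic (Gm θ c r) 1 ∧
    InjOn (Gm θ c r) (Ico 0 1) ∧ (∀ q, ‖deriv (Gm θ c r) q‖ = 1) ∧
      (∀ q, 0 < ((starRingEnd ℂ) (deriv (Gm θ c r) q) * deriv (deriv (Gm θ c r)) q).im) ∧
      ∃ K : Set ℂ, Convex ℝ K ∧ IsCompact K ∧ (interior K).Nonempty ∧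
        range (Gm θ c r) = frontier K := by
  have a0 := (cdGm hθ c (ρ := fun _ => r) contDiff_const (fun _ => h0) fun _ => h1).comp
    ((contDiff_const (c := (0 : ℝ))).prodMk contDiff_id)
  refine ⟨a0, Gm_per hθ c h0 h1,
    table _ (Th θ r) _ (Gm_der hθ hz c h0 h1) (Th_der hθ h0 h1) (fun q => ?_) (Th_per hθ h0 h1)
      (Gm_per hθ c h0 h1) fun t => ⟨_, Th_F hθ h0 h1 t⟩⟩
  have a := chainF0 hθ (Th_der hθ h0 h1 q) h0 h1
  simp only [F_Th hθ h0 h1] at a
  have b := a.unique (hasDerivAt_id q)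
  have := f_pos hθ h0 h1 (Th θ r q)
  by_contra hn
  nlinarith

lemma Gm_close {θ : ℝ → ℝ} (hθ : Monotone θ) (hp : ∀ q, θ (q + 1) = θ q + 2 * π)
    (hz : ∫ x in (0 : ℝ)..1, e (-θ x) = 0) (c : ℂ) {r η ε : ℝ}
    (h0 : 0 < r) (h1 : r < 1) (hη : 0 ≤ η) (hε : 0 ≤ ε) (hG : 1 - ε ≤ G r η) (q : ℝ)
    (q0 : 0 ≤ q) (q1 : q ≤ 1) :
    ‖Gm θ c r q - (c + ∫ x in (0 : ℝ)..q, e (θ x))‖ ≤ 4 * π * ε + η := by
  have cT : Continuous fun x => e (Th θ r x) := cont_e.comp
    (continuous_iff_continuousAt.2 fun q => (Th_der hθ h0 h1 q).continuousAt)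
  have a := intervalIntegral.integral_eq_sub_of_hasDerivAt (a := 0) (b := q)
    (fun x _ => Gm_der hθ hz c h0 h1 x) (cT.intervalIntegrable _ _)
  have b : Gm θ c r q - (c + ∫ x in (0 : ℝ)..q, e (θ x)) =
      ∫ x in (0 : ℝ)..q, (e (Th θ r x) - e (θ x)) := by
    rw [intervalIntegral.integral_sub (cT.intervalIntegrable _ _) (ii hθ _ cont_e _ _), a]
    simp only [Gm]; ring
  have m1 : Monotone fun x => θ (x + ε) := fun x y h => hθ (by linarith)
  have m2 : Monotone fun x => θ (x - ε) := fun x y h => hθ (by linarith)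
  have i1 : ∀ a b, IntervalIntegrable (fun x => θ (x + ε) - θ (x - ε) + η) volume a b :=
    fun a b => (m1.intervalIntegrable.sub m2.intervalIntegrable).add intervalIntegrable_const
  have d := intervalIntegral.norm_integral_le_of_norm_le (μ := volume) q0
    (f := fun x => e (Th θ r x) - e (θ x)) (Eventually.of_forall fun x _ =>
      (e_lip _ _).trans (Th_close hθ hp h0 h1 hε hG x)) (i1 0 q)
  have g := intervalIntegral.integral_mono_interval le_rfl q0 q1 (Eventually.of_forall fun x => by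
    have := hθ (show x - ε ≤ x + ε by linarith)
    simp only [Pi.zero_apply]; linarith) (i1 0 1)
  have per : Function.Periodic (fun x => θ x - 2 * π * x) 1 := by
    intro x; simp only [hp]; ring
  have sh : ∀ y, ∫ x in (0 : ℝ)..1, θ (x + y) = (∫ x in (0 : ℝ)..1, θ x) + 2 * π * y := by
    intro y
    have := per.intervalIntegral_add_eq y 0
    rw [intervalIntegral.integral_sub hθ.intervalIntegrable
      (intervalIntegral.intervalIntegrable_id.const_mul _), intervalIntegral.integral_sub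
      hθ.intervalIntegrable (intervalIntegral.intervalIntegrable_id.const_mul _),
      intervalIntegral.integral_const_mul, intervalIntegral.integral_const_mul, integral_id,
      integral_id, zero_add] at this
    rw [intervalIntegral.integral_comp_add_right, zero_add, add_comm 1 y]
    linarith
  rw [intervalIntegral.integral_add (b := 1) (m1.intervalIntegrable.sub m2.intervalIntegrable)
    intervalIntegrable_const, intervalIntegral.integral_sub (b := 1) m1.intervalIntegrable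
    m2.intervalIntegrable] at g
  have s2 := sh (-ε)
  simp only [← sub_eq_add_neg] at s2
  rw [sh, s2] at g
  simp only [intervalIntegral.integral_const, sub_zero, one_smul] at g
  rw [b]
  linarith

lemma Gm_speed {θ : ℝ → ℝ} (hθ : Monotone θ) (hz : ∫ x in (0 : ℝ)..1, e (-θ x) = 0) (c : ℂ)
    {σ : ℝ → ℝ} (hσ : ContDiff ℝ ∞ σ) (h0 : ∀ s, 0 < σ s) (h1 : ∀ s, σ s ≤ 1 / 2) (s q : ℝ) :
    ‖deriv (fun s => Gm θ c (1 - σ s ^ 2) q) s‖ ≤ 68 * |deriv σ s| := by
  have r0 : ∀ s, 0 < 1 - σ s ^ 2 := fun s => by nlinarith [h0 s, h1 s]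
  have r1 : ∀ s, 1 - σ s ^ 2 < 1 := fun s => by nlinarith [h0 s]
  have cρ : ContDiff ℝ ∞ fun s => 1 - σ s ^ 2 := contDiff_const.sub (hσ.pow 2)
  have dσ := ((hσ.differentiable (by simp)) s).hasDerivAt
  have dρ : HasDerivAt (fun s => 1 - σ s ^ 2) (-(2 * σ s * deriv σ s)) s := by
    simpa using (dσ.fun_pow 2).const_sub 1
  have key : ∀ q, HasDerivAt (fun s => X θ (1 - σ s ^ 2) (Th θ (1 - σ s ^ 2) q))
      ((-(2 * σ s * deriv σ s) : ℝ) * E θ (1 - σ s ^ 2) (Th θ (1 - σ s ^ 2) q)) s := by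
    intro q
    have a := (cdTh hθ cρ r0 r1).comp (contDiff_id.prodMk (contDiff_const (c := q)))
    have := chainX hθ hz dρ ((a.differentiable (by simp)) s).hasDerivAt (r0 s) (r1 s) (d := 0)
      (by
        simp only [Function.comp, id, F_Th hθ (r0 _) (r1 _)]
        exact hasDerivAt_const s q)
    refine HasDerivAt.congr_deriv this ?_
    simp
  have bd : ∀ t, ‖((-(2 * σ s * deriv σ s) : ℝ) : ℂ) * E θ (1 - σ s ^ 2) t‖ ≤
      34 * |deriv σ s| := by
    intro t
    have := E_bound θ (σ s) t (h0 s) (h1 s)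
    rw [norm_mul, norm_real, Real.norm_eq_abs, abs_neg, abs_mul, abs_of_pos (by linarith [h0 s])]
    nlinarith [abs_nonneg (deriv σ s)]
  have := (((key q).sub (key 0)).const_add c).deriv
  simp only [Gm]
  simp only [Pi.sub_apply] at this
  rw [this]
  linarith [norm_sub_le _ _ |>.trans (add_le_add (bd (Th θ (1 - σ s ^ 2) q))
    (bd (Th θ (1 - σ s ^ 2) 0)))]

end Pool.Agent.H.MP_fd4af6_gt
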